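import Mathlib
import Pool.Agent.Work.MP_bed24d_an.A15

set_option autoImplicit false

open MeasureTheory
open Pool.Agent.Work.MP_bed24d_an

namespace Pool.Agent.Results.MP_bed24d_an.RealMass

/-- There are a finitely generated group `G`, a holomorphic family `ρ` of representations of `G` in
`PSL(2, ℂ)` over the complex plane (all non-elementary, faithful outside a countable set of
parameters, not all conjugate), an admissible probability measure `μ` on `G` with Lyapunov exponent
`χ`, such that the bifurcation measure `T = dd^c χ` exists and charges the real locus. -/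
theorem result :
    ∃ (G : Type) (_ : Group G) (ρ : ℂ → G →* PSL2C) (μ : MonoidAlgebra ℝ G) (χ : ℂ → ℝ),
      Group.FG G ∧
      IsHolomorphicFamily ρ ∧
      (∀ x, NonElementary (ρ x)) ∧
      {x | ¬ Function.Injective (ρ x)}.Countable ∧
      (¬ ∃ c : PSL2C, ∀ g, ρ 0 g = c * ρ 1 g * c⁻¹) ∧
      Admissible μ ∧
      IsLyapunov ρ μ χ ∧
      (∃ T : Measure ℂ, IsDdc χ T) ∧
      ∀ T : Measure ℂ, IsDdc χ T → 0 < T (realLocus ρ) := by
  obtain ⟨χ, h1, h2, h3⟩ := main
  refine ⟨GG, inferInstance, rep, mu, χ, inferInstance, rep_holo, rep_nonelementary,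
    countable_not_faithful, not_all_conj, mu_admissible, h1, h2, fun T hT => ?_⟩
  have h4 := h3 T hT
  have h5 : (0 : ENNReal) < ENNReal.ofReal (Real.log 2 / 5) := by
    rw [ENNReal.ofReal_pos]
    have : 0 < Real.log 2 := Real.log_pos (by norm_num)
    positivity
  refine lt_of_lt_of_le h5 (h4.trans (measure_mono ?_))
  rintro _ ⟨x, -, rfl⟩
  exact real_locus_mem x

end Pool.Agent.Results.MP_bed24d_an.RealMass
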